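import Mathlib

/-!
# The number of the primes over `q` in the cyclotomic fields of `p`-power order is bounded
-/

set_option autoImplicit false

namespace Pool.Agent.H24UR

open Ideal NumberField

/-- A bound of the order of `q` modulo `p ^ n` from below. -/
theorem order_bound {p q : ℕ} (hp : p.Prime) (hq : q.Prime) (hpq : p ≠ q) :
    ∃ C : ℕ, ∀ n t : ℕ, 0 < t → p ^ n ∣ q ^ t - 1 → p ^ n ≤ C * t := by
  have : Fact p.Prime := ⟨hp⟩
  have hcop : Nat.Coprime q p := (Nat.coprime_primes hq hp).2 (Ne.symm hpq)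
  have hnd : ¬ p ∣ q := fun h => hpq ((Nat.prime_dvd_prime_iff_eq hp hq).1 h)
  obtain ⟨k, hk0, hk⟩ : ∃ k, 0 < k ∧ ∀ t, 0 < t →
      padicValNat p (q ^ (k * t) - 1) = padicValNat p (q ^ k - 1) + padicValNat p t := by
    rcases hp.eq_two_or_odd' with h2 | hodd
    · subst h2
      refine ⟨2, two_pos, fun t ht => ?_⟩
      have hd : 2 ∣ q - 1 := by
        rcases hq.eq_two_or_odd with h | h
        · exact absurd h.symm hpq
        · omega
      have h1 := padicValNat.pow_two_sub_pow (x := q) (y := 1) hq.one_lt hd hnd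
        (n := 2 * t) (by omega) (even_two_mul t)
      have h2 := padicValNat.pow_two_sub_pow (x := q) (y := 1) hq.one_lt hd hnd
        (n := 2) (by omega) even_two
      rw [one_pow] at h1 h2
      rw [padicValNat.mul two_ne_zero ht.ne'] at h1
      omega
    · refine ⟨p - 1, Nat.sub_pos_of_lt hp.one_lt, fun t ht => ?_⟩
      have hd : p ∣ q ^ (p - 1) - 1 := by
        have h1 := Nat.ModEq.pow_totient hcop
        rw [Nat.totient_prime hp] at h1
        exact (Nat.modEq_iff_dvd' (Nat.one_le_pow _ _ hq.pos)).1 h1.symm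
      have h1 := padicValNat.pow_sub_pow (p := p) hodd (x := q ^ (p - 1)) (y := 1)
        (Nat.one_lt_pow (Nat.sub_pos_of_lt hp.one_lt).ne' hq.one_lt) hd
        (fun h => hnd (hp.dvd_of_dvd_pow h)) (n := t) ht.ne'
      rw [one_pow, ← pow_mul] at h1
      exact h1
  refine ⟨q ^ k - 1, fun n t ht h => ?_⟩
  have hk1 : q ^ k - 1 ≠ 0 := Nat.sub_ne_zero_of_lt (Nat.one_lt_pow hk0.ne' hq.one_lt)
  have h1 : p ^ n ∣ q ^ (k * t) - 1 := by
    refine h.trans ?_
    have h2 := Nat.sub_dvd_pow_sub_pow (q ^ t) 1 k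
    rwa [one_pow, ← pow_mul, mul_comm t k] at h2
  have h2 : q ^ (k * t) - 1 ≠ 0 :=
    Nat.sub_ne_zero_of_lt (Nat.one_lt_pow (Nat.mul_pos hk0 ht).ne' hq.one_lt)
  rw [padicValNat_dvd_iff_le h2, hk t ht] at h1
  calc p ^ n ≤ p ^ (padicValNat p (q ^ k - 1) + padicValNat p t) :=
        Nat.pow_le_pow_right hp.pos h1
    _ = p ^ padicValNat p (q ^ k - 1) * p ^ padicValNat p t := pow_add _ _ _
    _ ≤ (q ^ k - 1) * t := Nat.mul_le_mul
        (Nat.le_of_dvd (Nat.pos_of_ne_zero hk1) pow_padicValNat_dvd)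
        (Nat.le_of_dvd ht pow_padicValNat_dvd)

theorem ncard_bound {p q : ℕ} (hp : p.Prime) (hq : q.Prime) : ∃ C : ℕ, ∀ (n : ℕ) (K : Type)
    [Field K] [NumberField K] [IsCyclotomicExtension {p ^ (n + 1)} ℚ K],
    (primesOver (span {(q : ℤ)}) (𝓞 K)).ncard ≤ C := by
  have : Fact p.Prime := ⟨hp⟩
  have : Fact q.Prime := ⟨hq⟩
  by_cases hpq : p = q
  · subst hpq
    exact ⟨1, fun n K _ _ _ => (IsCyclotomicExtension.Rat.ncard_primesOver_of_prime_pow p n K).le⟩
  · obtain ⟨C, hC⟩ := order_bound hp hq hpq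
    refine ⟨C, fun n K _ _ _ => ?_⟩
    have hne : NeZero (p ^ (n + 1)) := ⟨pow_ne_zero _ hp.ne_zero⟩
    have hnd : ¬ q ∣ p ^ (n + 1) := fun h =>
      hpq ((Nat.prime_dvd_prime_iff_eq hq hp).1 (hq.dvd_of_dvd_pow h)).symm
    have hgal : IsGalois ℚ K := IsCyclotomicExtension.isGalois {p ^ (n + 1)} ℚ K
    have h1 := ncard_primesOver_mul_ramificationIdxIn_mul_inertiaDegIn (span {(q : ℤ)}) (𝓞 K)
      Gal(K/ℚ)
    rw [IsCyclotomicExtension.Rat.ramificationIdxIn_eq_of_not_dvd q K hnd,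
      IsCyclotomicExtension.Rat.inertiaDegIn_eq_of_not_dvd q K hnd, one_mul] at h1
    have hu : IsUnit (q : ZMod (p ^ (n + 1))) :=
      (ZMod.isUnit_iff_coprime q (p ^ (n + 1))).2 (Nat.Coprime.pow_right _
        ((Nat.coprime_primes hq hp).2 (Ne.symm hpq)))
    have ht : 0 < orderOf (q : ZMod (p ^ (n + 1))) := by
      obtain ⟨u, hu⟩ := hu
      rw [← hu, orderOf_units]
      exact orderOf_pos u
    have h2 : p ^ (n + 1) ∣ q ^ orderOf (q : ZMod (p ^ (n + 1))) - 1 := by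
      have h3 := pow_orderOf_eq_one (q : ZMod (p ^ (n + 1)))
      rw [← ZMod.natCast_eq_zero_iff, Nat.cast_sub (Nat.one_le_pow _ _ hq.pos), Nat.cast_pow, h3,
        Nat.cast_one, sub_self]
    have h3 := hC (n + 1) _ ht h2
    have h4 : Nat.card Gal(K/ℚ) = (p ^ (n + 1)).totient := by
      rw [IsGalois.card_aut_eq_finrank]
      exact IsCyclotomicExtension.Rat.finrank (p ^ (n + 1)) K
    have h5 : (p ^ (n + 1)).totient ≤ p ^ (n + 1) := Nat.totient_le _
    rw [h4] at h1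
    refine Nat.le_of_mul_le_mul_right ?_ ht
    rw [h1]
    exact h5.trans h3

end Pool.Agent.H24UR
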