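import Mathlib
import Pool.Agent.H24MU.St

/-!
# The `μ`-conjecture of Iwasawa and fixed vectors: definitions

`QB` is the field of the algebraic numbers; number fields are the `F : IntermediateField ℚ QB` of finite
degree. For a prime `p` the cyclotomic `ℤ_p`-extension of `F` is `F ⊔ Qcyc p`.
-/

set_option autoImplicit false

namespace Pool.Agent.H24UR.St

open IntermediateField Pool.Agent.H24MU.St

/-- `σ` belongs to the decomposition group of some maximal ideal `P` of the ring of the algebraic integers
which contains `p`: for all algebraic integers `x`, `σ x ∈ P` if and only if `x ∈ P`. -/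
def IsDecomposition (p : ℕ) (σ : GQ) : Prop :=
  ∃ P : Ideal (integralClosure ℤ QB), P.IsMaximal ∧ (p : integralClosure ℤ QB) ∈ P ∧
    ∀ x y : integralClosure ℤ QB, (y : QB) = σ x → (x ∈ P ↔ y ∈ P)

/-- The homomorphisms `φ` from the absolute Galois group of `K` to `ℤ / p`, extended by zero to the
absolute Galois group of `ℚ`, which are continuous (trivial on the elements which fix a suitable number
field), unramified (trivial on the inertia groups of all the maximal ideals) and trivial on the
decomposition groups of the maximal ideals which contain `p`. These are the homomorphisms from the Galois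
group of `K(K) / K` to `ℤ / p`, where `K(K)` is the maximal abelian pro-`p` extension of `K` which is
unramified at all finite primes and in which the primes over `p` split completely. -/
def Homs (p : ℕ) (K : Fds) : Set (GQ → ZMod p) :=
  {φ | (∀ σ, ¬ Fixes K σ → φ σ = 0) ∧
    (∀ σ τ, Fixes K σ → Fixes K τ → φ (σ * τ) = φ σ + φ τ) ∧
    (∃ E : Fds, FiniteDimensional ℚ E ∧ ∀ σ, Fixes K σ → Fixes E σ → φ σ = 0) ∧
    ∀ σ, Fixes K σ → IsInertia ∅ σ ∨ IsDecomposition p σ → φ σ = 0}

/-- The maximal ideals of the ring of integers of the field `L` (of finite or infinite degree) which contain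
an element of `S`. -/
def primesOver (S : Finset ℕ) (L : Fds) : Set (Ideal (NumberField.RingOfIntegers L)) :=
  {I | I.IsMaximal ∧ ∃ q ∈ S, (q : NumberField.RingOfIntegers L) ∈ I}

/-- The compositum of the totally real subfields of the fields of the `p ^ n`-th roots of unity which are
Galois extensions of `ℚ` of `p`-power degree: the cyclotomic `ℤ_p`-extension of `ℚ`. -/
noncomputable def Qcyc (p : ℕ) : Fds :=
  sSup {B : Fds | IsGalois ℚ B ∧ NumberField.IsTotallyReal B ∧
    (∃ n, Module.finrank ℚ B = p ^ n) ∧ ∃ n, B ≤ adjoin ℚ {z : QB | z ^ p ^ n = 1}}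

/-- The conjecture for `p` and `F`: there are only finitely many homomorphisms from `X` to `ℤ / p`. -/
def MuConj (p : ℕ) (F : Fds) : Prop := (Homs p (F ⊔ Qcyc p)).Finite

/-- Some irreducible `𝔽_p[Aut F]`-module `V` is such that the conjecture fails for all the fields `F^D`,
where `D` is a subgroup of `Aut F`, of any order, which has a nontrivial fixed vector in `V`. -/
def HasWitness (p : ℕ) (F : Fds) : Prop :=
  ∃ (V : Type) (_ : CommGroup V) (_ : Finite V) (b : Aut F →* MulAut V), Irr p b ∧
    ∀ D : Subgroup (Aut F), HasFixed b D → ¬ MuConj p (fx F D)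

/-- The number of elements of `Homs p K` (zero if the set is infinite). -/
noncomputable def numHoms (p : ℕ) (K : Fds) : ℕ := (Homs p K).ncard

/-- If the number `t` of the primes of `F Z` over `R` and `p` is finite and the `h(F^{D i} Z)` are finite
then `h(F Z)` is finite and `h(F Z) ≤ (∏ i, p ^ (g ^ 2 + 2 t g + 1) h(F^{D i} Z)) ^ (g ^ 2)`, where
`g = |Aut F|`. -/
def RankInequality (p : ℕ) (R : Finset ℕ) (F Z : Fds) {ι : Type} [Fintype ι]
    (D : ι → Subgroup (Aut F)) : Prop :=
  (primesOver (insert p R) (F ⊔ Z)).Finite → (∀ i, (Homs p (fx F (D i) ⊔ Z)).Finite) →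
    (Homs p (F ⊔ Z)).Finite ∧ numHoms p (F ⊔ Z) ≤
      (∏ i, p ^ (Nat.card (Aut F) ^ 2 + 2 * (primesOver (insert p R) (F ⊔ Z)).ncard *
        Nat.card (Aut F) + 1) * numHoms p (fx F (D i) ⊔ Z)) ^ (Nat.card (Aut F) ^ 2)

/-- `C` is a set of number fields which contains all the subfields of its elements. -/
def SubfieldClosed (C : Set Fds) : Prop :=
  ∀ F ∈ C, FiniteDimensional ℚ F ∧ ∀ E : Fds, E ≤ F → E ∈ C

/-- The field `M` is *tight* for `C`: for every field `L` in `C` which contains `M` there is an
irreducible `𝔽_p[Aut L]`-module in which the subgroups `D` of `Aut L` with `[L^D : ℚ] < [M : ℚ]` have no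
nontrivial fixed vectors. -/
def TightFor (p : ℕ) (C : Set Fds) (M : Fds) : Prop :=
  ∀ L ∈ C, M ≤ L →
    ∃ (V : Type) (_ : CommGroup V) (_ : Finite V) (b : Aut L →* MulAut V), Irr p b ∧
      ∀ D : Subgroup (Aut L), deg (fx L D) < deg M → ¬ HasFixed b D

/-- The restrictions on a tight field `M`: the order of `Aut M` is prime to `p`, and `Aut M` acts on some
finite elementary abelian `p`-group `V ≠ 1` in such a way that no `σ ≠ 1` has a nontrivial fixed vector;
the `p`-subgroups `P` of `Aut L` satisfy `|P| [M : ℚ] ≤ [L : ℚ]` for all fields `L` in `C` which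
contain `M`. -/
def Restrictions (p : ℕ) (C : Set Fds) (M : Fds) : Prop :=
  ¬ p ∣ Nat.card (Aut M) ∧
  (∃ (V : Type) (_ : CommGroup V) (_ : Finite V) (b : Aut M →* MulAut V),
    (∀ v : V, v ^ p = 1) ∧ (∃ v : V, v ≠ 1) ∧ ∀ σ, σ ≠ 1 → ∀ v, b σ v = v → v = 1) ∧
  ∀ L ∈ C, M ≤ L →
    ∀ P : Subgroup (Aut L), (∃ k, Nat.card P = p ^ k) → Nat.card P * deg M ≤ deg L

end Pool.Agent.H24UR.St
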