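import Mathlib
import Pool.Agent.H24MU.Frm

/-!
# Transitivity of Galois groups on the maximal ideals of the ring of the algebraic integers
-/

set_option autoImplicit false

namespace Pool.Agent.H24UR

open IntermediateField Pool.Agent.H24MU.St Pool.Agent.H24MU

attribute [local instance] alg_QB

/-- `g` maps `P` to `P'`. -/
def Mv (g : QB ≃ₐ[ℚ] QB) (P P' : Ideal OB) : Prop :=
  ∀ x y : OB, (y : QB) = g x → (x ∈ P ↔ y ∈ P')

/-- The image of an algebraic integer. -/
noncomputable def ac (g : QB ≃ₐ[ℚ] QB) (x : OB) : OB :=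
  ⟨g x, x.2.map (g.toAlgHom.restrictScalars ℤ)⟩

theorem ac_coe (g : QB ≃ₐ[ℚ] QB) (x : OB) : ((ac g x : OB) : QB) = g x := rfl

theorem mv_iff {g : QB ≃ₐ[ℚ] QB} {P P' : Ideal OB} : Mv g P P' ↔ ∀ x, x ∈ P ↔ ac g x ∈ P' := by
  constructor
  · intro h x
    exact h x (ac g x) rfl
  · intro h x y hxy
    have h1 : y = ac g x := Subtype.ext hxy
    rw [h1]
    exact h x

theorem mv_mul {g h : QB ≃ₐ[ℚ] QB} {P P' P'' : Ideal OB} (h1 : Mv h P P') (h2 : Mv g P' P'') :
    Mv (g * h) P P'' := by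
  rw [mv_iff] at *
  intro x
  rw [h1 x, h2 (ac h x)]
  rfl

theorem mv_inv {g : QB ≃ₐ[ℚ] QB} {P P' : Ideal OB} (h : Mv g P P') : Mv g⁻¹ P' P := by
  rw [mv_iff] at *
  intro x
  rw [h (ac g⁻¹ x)]
  have h1 : ac g (ac g⁻¹ x) = x := Subtype.ext (g.apply_symm_apply _)
  rw [h1]

/-- The Galois group of `QB` over `L` acts transitively on the maximal ideals with the same elements
in `L`. -/
theorem trans_L (L : IntermediateField ℚ QB) (P P' : Ideal OB) (hP : P.IsMaximal)
    (hP' : P'.IsMaximal) (h : ∀ x : OB, (x : QB) ∈ L → (x ∈ P ↔ x ∈ P')) :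
    ∃ g ∈ L.fixingSubgroup, Mv g P P' := by
  classical
  have hgal : IsGalois ℚ QB := by
    have h0 : IsAlgClosure ℚ QB := ⟨inferInstance, alg_QB⟩
    have : Normal ℚ QB := IsAlgClosure.normal ℚ QB
    exact ⟨⟩
  have hcl : IsClosed (L.fixingSubgroup : Set (QB ≃ₐ[ℚ] QB)) :=
    InfiniteGalois.fixingSubgroup_isClosed L
  have hcomp : CompactSpace L.fixingSubgroup := isCompact_iff_compactSpace.1 hcl.isCompact
  let A : Subalgebra ℤ OB := (L.toSubalgebra.restrictScalars ℤ).comap OB.val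
  have hA : ∀ x : OB, x ∈ A ↔ (x : QB) ∈ L := fun x => Iff.rfl
  let tB : TopologicalSpace OB := ⊥
  have hB : DiscreteTopology OB := ⟨rfl⟩
  have hs : ∀ (g : L.fixingSubgroup) (x : OB), ((g • x : OB) : QB) = g.1 x := fun g x => rfl
  have hcomm : SMulCommClass L.fixingSubgroup A OB := by
    refine ⟨fun g a x => Subtype.ext ?_⟩
    have h1 : ((g • (a • x) : OB) : QB) = g.1 ((a : OB) : QB) * g.1 x := by
      rw [hs]
      exact map_mul _ _ _
    rw [h1, (IntermediateField.mem_fixingSubgroup_iff _ _).1 g.2 _ ((hA a).1 a.2)]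
    rfl
  have hcont : ContinuousSMul L.fixingSubgroup OB := by
    rw [continuousSMul_iff_stabilizer_isOpen]
    intro x
    have h1 := stabilizer_isOpen_of_isIntegral (K := ℚ) (x : QB)
    have h2 : (MulAction.stabilizer L.fixingSubgroup x : Set L.fixingSubgroup) =
        Subtype.val ⁻¹' (MulAction.stabilizer (QB ≃ₐ[ℚ] QB) (x : QB) : Set (QB ≃ₐ[ℚ] QB)) := by
      ext g
      constructor
      · intro hg
        exact congrArg Subtype.val hg
      · intro hg
        exact Subtype.ext hg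
    rw [h2]
    exact h1.preimage continuous_subtype_val
  have hinv : Algebra.IsInvariant A OB L.fixingSubgroup := by
    refine ⟨fun b hb => ?_⟩
    have h1 : (b : QB) ∈ fixedField L.fixingSubgroup :=
      (IntermediateField.mem_fixedField_iff _ _).2 fun g hg => congrArg Subtype.val (hb ⟨g, hg⟩)
    rw [InfiniteGalois.fixedField_fixingSubgroup] at h1
    exact ⟨⟨b, (hA b).2 h1⟩, rfl⟩
  have hPp := hP.isPrime
  have hPp' := hP'.isPrime
  obtain ⟨g, hg⟩ := Algebra.IsInvariant.exists_smul_of_under_eq_of_profinite (A := A) (B := OB)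
    (G := L.fixingSubgroup) P P' (by
      ext a
      exact h a ((hA a).1 a.2))
  refine ⟨g.1, g.2, ?_⟩
  rw [mv_iff]
  intro x
  rw [hg]
  have h1 : ac g.1 x = g • x := rfl
  rw [h1]
  exact (Ideal.smul_mem_pointwise_smul_iff).symm

end Pool.Agent.H24UR
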