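import Mathlib
import Pool.Agent.H24UR.Trans
import Pool.Agent.H24UR.Cyc
import Pool.Agent.H24UR.St

/-!
# Finite decomposition in the cyclotomic `ℤ_p`-extension
-/

set_option autoImplicit false

namespace Pool.Agent.H24UR

open IntermediateField Pool.Agent.H24MU.St Pool.Agent.H24MU Pool.Agent.H24UR.St

attribute [local instance] alg_QB

/-- The field of the `p ^ n`-th roots of unity. -/
noncomputable def Ecy (p n : ℕ) : IntermediateField ℚ QB := adjoin ℚ {z : QB | z ^ p ^ n = 1}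

theorem Ecy_mono (p : ℕ) {n m : ℕ} (h : n ≤ m) : Ecy p n ≤ Ecy p m := by
  refine adjoin.mono _ _ _ fun z hz => ?_
  change z ^ p ^ m = 1
  have h1 : z ^ p ^ n = 1 := hz
  obtain ⟨k, rfl⟩ := Nat.exists_eq_add_of_le h
  rw [pow_add, pow_mul, h1, one_pow]

theorem Ecy_cyc {p : ℕ} (hp : p.Prime) (n : ℕ) : IsCyclotomicExtension {p ^ n} ℚ (Ecy p n) := by
  have hne : NeZero (p ^ n) := ⟨pow_ne_zero _ hp.ne_zero⟩
  have hne' : NeZero ((p ^ n : ℕ) : QB) := ⟨by
    rw [Nat.cast_ne_zero]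
    exact pow_ne_zero _ hp.ne_zero⟩
  obtain ⟨ζ, hζ⟩ := IsAlgClosed.exists_root (Polynomial.cyclotomic (p ^ n) QB)
    (Polynomial.degree_cyclotomic_pos (p ^ n) QB (pow_pos hp.pos n)).ne'
  rw [Polynomial.isRoot_cyclotomic_iff] at hζ
  have h1 : Ecy p n = ℚ⟮ζ⟯ := by
    refine le_antisymm (adjoin_le_iff.2 fun z hz => ?_) ?_
    · obtain ⟨i, _, rfl⟩ := hζ.eq_pow_of_pow_eq_one (show z ^ p ^ n = 1 from hz)
      exact pow_mem (mem_adjoin_simple_self ℚ ζ) i
    · rw [adjoin_simple_le_iff]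
      exact subset_adjoin ℚ _ (show ζ ^ p ^ n = 1 from hζ.pow_eq_one)
  have h2 : Algebra.IsIntegral ℚ QB := inferInstance
  rw [h1]
  exact hζ.intermediateField_adjoin_isCyclotomicExtension ℚ

/-- The field of the roots of unity of `p`-power order. -/
noncomputable def Einf (p : ℕ) : IntermediateField ℚ QB := ⨆ n, Ecy p n

theorem mem_Einf {p : ℕ} {x : QB} : x ∈ Einf p ↔ ∃ n, x ∈ Ecy p n := by
  have hd : Directed (· ≤ ·) (Ecy p) := (monotone_nat_of_le_succ fun n =>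
    Ecy_mono p (Nat.le_succ n)).directed_le
  change x ∈ ((⨆ n, Ecy p n : IntermediateField ℚ QB) : Set QB) ↔ _
  rw [coe_iSup_of_directed hd]
  exact Set.mem_iUnion

theorem Qcyc_le (p : ℕ) : Qcyc p ≤ Einf p := by
  refine sSup_le ?_
  rintro B ⟨_, _, _, n, h⟩
  exact h.trans (le_iSup (Ecy p) n)

section comap

open NumberField

/-- The inclusion of the integers. -/
noncomputable def inc (E : IntermediateField ℚ QB) : 𝓞 E →+* OB where
  toFun x := ⟨((x : E) : QB), (RingOfIntegers.isIntegral_coe x).map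
    (E.val.restrictScalars ℤ)⟩
  map_one' := rfl
  map_mul' _ _ := rfl
  map_zero' := rfl
  map_add' _ _ := rfl

theorem exists_inc {E : IntermediateField ℚ QB} {x : OB} (hx : (x : QB) ∈ E) :
    ∃ y : 𝓞 E, inc E y = x := by
  have h1 : IsIntegral ℤ (⟨x, hx⟩ : E) :=
    (isIntegral_algHom_iff (E.val.restrictScalars ℤ) Subtype.val_injective).1 x.2
  exact ⟨⟨⟨x, hx⟩, h1⟩, Subtype.ext rfl⟩

theorem comap_mem {q : ℕ} (hq : q.Prime) (E : IntermediateField ℚ QB) {P : Ideal OB}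
    (hP : P.IsMaximal) (hqP : (q : OB) ∈ P) :
    P.comap (inc E) ∈ Ideal.primesOver (Ideal.span {(q : ℤ)}) (𝓞 E) := by
  have hPp := hP.isPrime
  refine ⟨Ideal.comap_isPrime _ _, ⟨?_⟩⟩
  have hmax : (Ideal.span {(q : ℤ)}).IsMaximal :=
    PrincipalIdealRing.isMaximal_of_irreducible (Nat.prime_iff_prime_int.1 hq).irreducible
  refine hmax.eq_of_le (Ideal.IsPrime.ne_top inferInstance) ?_
  rw [Ideal.span_singleton_le_iff_mem]
  change inc E (algebraMap ℤ (𝓞 E) (q : ℤ)) ∈ P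
  rw [map_natCast, map_natCast]
  exact hqP

end comap

/-- A function with finitely many values which determines the intersections of the maximal ideals over
`q` with the cyclotomic field. -/
theorem dec {p q : ℕ} (hp : p.Prime) (hq : q.Prime) : ∃ (E : Type) (_ : Finite E)
    (o : Ideal OB → E), ∀ P P' : Ideal OB, P.IsMaximal → P'.IsMaximal → (q : OB) ∈ P →
      (q : OB) ∈ P' → o P = o P' → ∀ x : OB, (x : QB) ∈ Einf p → (x ∈ P ↔ x ∈ P') := by
  classical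
  let f : {P : Ideal OB // P.IsMaximal ∧ (q : OB) ∈ P} → Set OB := fun P =>
    {x | (x : QB) ∈ Einf p ∧ x ∈ P.1}
  have hfin : (Set.range f).Finite := by
    by_contra hinf
    obtain ⟨C, hC⟩ := ncard_bound hp hq
    obtain ⟨t, ht, htc⟩ := Set.Infinite.exists_subset_card_eq hinf (C + 1)
    have hsep : ∀ a b : Set OB, ∃ n : ℕ, a ∈ Set.range f → b ∈ Set.range f → a ≠ b →
        ∃ x : OB, (x : QB) ∈ Ecy p n ∧ ¬ (x ∈ a ↔ x ∈ b) := by
      intro a b
      by_cases h : a ∈ Set.range f ∧ b ∈ Set.range f ∧ a ≠ b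
      · obtain ⟨ha, hb, hab⟩ := h
        obtain ⟨x, hx⟩ : ∃ x : OB, ¬ (x ∈ a ↔ x ∈ b) := by
          by_contra hcon
          push Not at hcon
          exact hab (Set.ext hcon)
        have hxE : (x : QB) ∈ Einf p := by
          obtain ⟨P, rfl⟩ := ha
          obtain ⟨P', rfl⟩ := hb
          by_contra hcon
          exact hx ⟨fun h => absurd h.1 hcon, fun h => absurd h.1 hcon⟩
        obtain ⟨n, hn⟩ := mem_Einf.1 hxE
        exact ⟨n, fun _ _ _ => ⟨x, hn, hx⟩⟩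
      · exact ⟨0, fun h1 h2 h3 => absurd ⟨h1, h2, h3⟩ h⟩
    choose n hn using hsep
    let N : ℕ := (t ×ˢ t).sup fun ab => n ab.1 ab.2
    have hN : ∀ a ∈ t, ∀ b ∈ t, n a b ≤ N := fun a ha b hb =>
      Finset.le_sup (f := fun ab : Set OB × Set OB => n ab.1 ab.2)
        (Finset.mem_product.2 ⟨ha, hb⟩ : (a, b) ∈ t ×ˢ t)
    have hcyc := Ecy_cyc hp (N + 1)
    have hnf : NumberField (Ecy p (N + 1)) :=
      IsCyclotomicExtension.numberField {p ^ (N + 1)} ℚ (Ecy p (N + 1))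
    have hle := hC N (Ecy p (N + 1))
    have hrep : ∀ a : Set OB, ∃ P : Ideal OB, a ∈ Set.range f → P.IsMaximal ∧ (q : OB) ∈ P ∧
        ∀ x : OB, (x : QB) ∈ Einf p → (x ∈ P ↔ x ∈ a) := by
      intro a
      by_cases ha : a ∈ Set.range f
      · obtain ⟨P, hP⟩ := ha
        refine ⟨P.1, fun _ => ⟨P.2.1, P.2.2, fun x hx => ?_⟩⟩
        rw [← hP]
        exact ⟨fun h => ⟨hx, h⟩, fun h => h.2⟩
      · exact ⟨⊥, fun h => absurd h ha⟩
    choose R hR using hrep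
    have hinj : Set.InjOn (fun a => (R a).comap (inc (Ecy p (N + 1)))) (t : Set (Set OB)) := by
      intro a ha b hb hab
      by_contra hne
      obtain ⟨x, hx, hx'⟩ := hn a b (ht ha) (ht hb) hne
      have hx1 : (x : QB) ∈ Ecy p (N + 1) :=
        Ecy_mono p ((hN a ha b hb).trans (Nat.le_succ N)) hx
      have hx2 : (x : QB) ∈ Einf p := mem_Einf.2 ⟨_, hx1⟩
      obtain ⟨y, hy⟩ := exists_inc hx1
      apply hx'
      rw [← (hR a (ht ha)).2.2 x hx2, ← (hR b (ht hb)).2.2 x hx2, ← hy]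
      have h1 : y ∈ (R a).comap (inc (Ecy p (N + 1))) ↔ y ∈ (R b).comap (inc (Ecy p (N + 1))) := by
        rw [show (R a).comap (inc (Ecy p (N + 1))) = (R b).comap (inc (Ecy p (N + 1))) from hab]
      exact h1
    have hsub : ((t.image fun a => (R a).comap (inc (Ecy p (N + 1))) :
        Finset (Ideal (NumberField.RingOfIntegers (Ecy p (N + 1))))) : Set _) ⊆
        Ideal.primesOver (Ideal.span {(q : ℤ)}) (NumberField.RingOfIntegers (Ecy p (N + 1))) := by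
      intro I hI
      rw [Finset.coe_image] at hI
      obtain ⟨a, ha, rfl⟩ := hI
      exact comap_mem hq _ (hR a (ht ha)).1 (hR a (ht ha)).2.1
    have hmax : (Ideal.span {(q : ℤ)}).IsMaximal :=
      PrincipalIdealRing.isMaximal_of_irreducible (Nat.prime_iff_prime_int.1 hq).irreducible
    have h1 := Set.ncard_le_ncard hsub (IsDedekindDomain.primesOver_finite _ _)
    rw [Set.ncard_coe_finset, Finset.card_image_of_injOn hinj, htc] at h1
    omega
  refine ⟨Option (Set.range f), ?_, fun P => if h : P.IsMaximal ∧ (q : OB) ∈ P then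
    some ⟨f ⟨P, h⟩, _, rfl⟩ else none, fun P P' hP hP' hq hq' h x hx => ?_⟩
  · have : Finite (Set.range f) := hfin
    infer_instance
  · have h1 : (some ⟨f ⟨P, hP, hq⟩, _, rfl⟩ : Option (Set.range f)) =
        some ⟨f ⟨P', hP', hq'⟩, _, rfl⟩ := by
      have h2 := h
      simp only [dif_pos (show P.IsMaximal ∧ (q : OB) ∈ P from ⟨hP, hq⟩),
        dif_pos (show P'.IsMaximal ∧ (q : OB) ∈ P' from ⟨hP', hq'⟩)] at h2
      exact h2
    have h2 := congrArg Subtype.val (Option.some_injective _ h1)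
    have h3 : x ∈ f ⟨P, hP, hq⟩ ↔ x ∈ f ⟨P', hP', hq'⟩ := by
      rw [show f ⟨P, hP, hq⟩ = f ⟨P', hP', hq'⟩ from h2]
    exact ⟨fun h => (h3.1 ⟨hx, h⟩).2, fun h => (h3.2 ⟨hx, h⟩).2⟩

/-- The Galois group of `F ⊔ Qcyc p` has finitely many orbits on the maximal ideals over `q`. -/
theorem orb {p q : ℕ} (hp : p.Prime) (hq : q.Prime) (F : IntermediateField ℚ QB)
    [FiniteDimensional ℚ F] : ∃ (E : Type) (_ : Finite E)
    (o : Ideal OB → E), ∀ P P' : Ideal OB, P.IsMaximal → P'.IsMaximal → (q : OB) ∈ P →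
      (q : OB) ∈ P' → o P = o P' → ∃ g ∈ (F ⊔ Qcyc p).fixingSubgroup, Mv g P P' := by
  classical
  obtain ⟨E, hE, o, ho⟩ := dec hp hq
  obtain ⟨α, T, hT, hα⟩ := exists_prim F
  have hrep : ∀ e : E, ∃ R : Ideal OB, ∀ P : Ideal OB, P.IsMaximal → (q : OB) ∈ P → o P = e →
      R.IsMaximal ∧ (q : OB) ∈ R ∧ o R = e := by
    intro e
    by_cases h : ∃ P : Ideal OB, P.IsMaximal ∧ (q : OB) ∈ P ∧ o P = e
    · obtain ⟨P, h1, h2, h3⟩ := h
      exact ⟨P, fun _ _ _ _ => ⟨h1, h2, h3⟩⟩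
    · exact ⟨⊥, fun P h1 h2 h3 => absurd ⟨P, h1, h2, h3⟩ h⟩
  choose R hR using hrep
  have hg : ∀ P : Ideal OB, ∃ g : QB ≃ₐ[ℚ] QB, P.IsMaximal → (q : OB) ∈ P →
      g ∈ (Einf p).fixingSubgroup ∧ Mv g (R (o P)) P := by
    intro P
    by_cases h : P.IsMaximal ∧ (q : OB) ∈ P
    · obtain ⟨h1, h2, h3⟩ := hR (o P) P h.1 h.2 rfl
      obtain ⟨g, hg, hg'⟩ := trans_L (Einf p) (R (o P)) P h1 h.1 fun x hx =>
        ho _ _ h1 h.1 h2 h.2 h3 x hx
      exact ⟨g, fun _ _ => ⟨hg, hg'⟩⟩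
    · exact ⟨1, fun h1 h2 => absurd ⟨h1, h2⟩ h⟩
  choose g hg using hg
  refine ⟨E × T, inferInstance, fun P => (o P, ⟨(g P)⁻¹ α, hT _⟩), fun P P' hP hP' hqP hqP' h => ?_⟩
  obtain ⟨h1, h2⟩ := Prod.mk.inj h
  have h3 : (g P)⁻¹ α = (g P')⁻¹ α := congrArg Subtype.val h2
  obtain ⟨k1, k2⟩ := hg P hP hqP
  obtain ⟨l1, l2⟩ := hg P' hP' hqP'
  rw [← h1] at l2
  refine ⟨g P' * (g P)⁻¹, ?_, mv_mul (mv_inv k2) l2⟩
  rw [fixingSubgroup_sup]
  refine ⟨hα _ ?_, fixingSubgroup_antitone (Qcyc_le p) (mul_mem l1 (inv_mem k1))⟩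
  change g P' ((g P)⁻¹ α) = α
  rw [h3]
  exact (g P').apply_symm_apply α

end Pool.Agent.H24UR
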