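import Mathlib
import Pool.Agent.H24UR.Dec
import Pool.Agent.H24UR.Grp

/-!
# Number fields: the frame
-/

set_option autoImplicit false

namespace Pool.Agent.H24UR

open IntermediateField Pool.Agent.H24MU.St Pool.Agent.H24MU Pool.Agent.H24UR.St
  Pool.Agent.X310.Mu

attribute [local instance] alg_QB

theorem mem_comap_inc {L : IntermediateField ℚ QB} {P : Ideal OB}
    {x : NumberField.RingOfIntegers L} : x ∈ P.comap (inc L) ↔ inc L x ∈ P := Iff.rfl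

theorem mv_inertia {g σ : QB ≃ₐ[ℚ] QB} {P P' : Ideal OB} (h : Mv g P P')
    (hσ : ∀ x y : OB, (y : QB) = σ x → y - x ∈ P') : ∀ x y : OB, (y : QB) = (g⁻¹ * σ * g) x →
      y - x ∈ P := by
  rw [mv_iff] at h
  intro x y hxy
  rw [h]
  have h1 : ac g (y - x) = ac g y - ac g x := Subtype.ext (map_sub g _ _)
  rw [h1]
  apply hσ
  rw [ac_coe, ac_coe, hxy]
  change g (g⁻¹ (σ (g x))) = σ (g x)
  exact g.apply_symm_apply _

theorem dec_conj (p : ℕ) (σ : QB ≃ₐ[ℚ] QB) (hσ : IsDecomposition p σ) (g : QB ≃ₐ[ℚ] QB) :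
    IsDecomposition p (g * σ * g⁻¹) := by
  obtain ⟨P, hP, hq, hI⟩ := hσ
  let e : OB ≃ₐ[ℤ] OB := (g⁻¹.restrictScalars ℤ).mapIntegralClosure
  have he : ∀ x : OB, e x = ac g⁻¹ x := fun x => rfl
  refine ⟨P.comap e.toRingEquiv, Ideal.comap_isMaximal_of_equiv e.toRingEquiv, ?_,
    fun x y hxy => ?_⟩
  · rw [Ideal.mem_comap]
    have h1 : e.toRingEquiv (p : OB) = (p : OB) := map_natCast _ _
    rwa [h1]
  · rw [Ideal.mem_comap, Ideal.mem_comap]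
    apply hI
    change ((e y : OB) : QB) = σ ((e x : OB) : QB)
    rw [he, he, ac_coe, ac_coe, hxy]
    change g⁻¹ (g (σ (g⁻¹ x))) = σ (g⁻¹ x)
    exact g.symm_apply_apply _

/-- The system. -/
def sys (p : ℕ) : Sys (QB ≃ₐ[ℚ] QB) where
  Op := (Pool.Agent.H24MU.sys ∅).Op
  top := (Pool.Agent.H24MU.sys ∅).top
  inf := (Pool.Agent.H24MU.sys ∅).inf
  conj := (Pool.Agent.H24MU.sys ∅).conj
  In := {σ | IsInertia ∅ σ ∨ IsDecomposition p σ}
  in_conj := by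
    rintro σ (hσ | hσ) g
    · exact Or.inl (in_conj ∅ σ hσ g)
    · exact Or.inr (dec_conj p σ hσ g)

/-- The frame. -/
noncomputable def frame (p : ℕ) (F : IntermediateField ℚ QB)
    [FiniteDimensional ℚ F] (Z : IntermediateField ℚ QB) (hZ : Z.fixingSubgroup.Normal) :
    Frame (sys p) (F ≃ₐ[ℚ] F) where
  Z := Z.fixingSubgroup
  normal := fun σ hσ g => hZ.conj_mem σ hσ g
  St := Pool.Agent.H24MU.St F
  π := res F
  surj := by
    intro γ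
    obtain ⟨g, hg⟩ := exists_ext F γ
    exact ⟨⟨g, γ, hg⟩, res_eq _ _ hg⟩
  opA := ⟨F.fixingSubgroup, ⟨F, inferInstance, le_rfl⟩, fun σ hσ => mem_of_fix hσ⟩

theorem frame_K (p : ℕ) (F : IntermediateField ℚ QB)
    [FiniteDimensional ℚ F] (Z : IntermediateField ℚ QB) (hZ : Z.fixingSubgroup.Normal)
    (D : Subgroup (F ≃ₐ[ℚ] F)) :
    (frame p F Z hZ).K D = (fx F D ⊔ Z).fixingSubgroup := by
  rw [IntermediateField.fixingSubgroup_sup]
  ext σ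
  rw [Frame.mem_K, Subgroup.mem_inf]
  change σ ∈ Z.fixingSubgroup ∧ σ ∈ Pool.Agent.H24MU.St F ∧ _ ↔ _
  constructor
  · rintro ⟨h1, h2, h3⟩
    refine ⟨(IntermediateField.mem_fixingSubgroup_iff _ _).2 ?_, h1⟩
    rintro _ ⟨y, hy, rfl⟩
    rw [(frame p F Z hZ).pr_of h2] at h3
    have h4 := res_spec ⟨σ, h2⟩ y
    change σ (y : QB) = (res F ⟨σ, h2⟩ y : QB) at h4
    change σ (y : QB) = (y : QB)
    rw [h4]
    exact congrArg _ ((IntermediateField.mem_fixedField_iff _ _).1 hy _ h3)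
  · rintro ⟨h1, h2⟩
    obtain ⟨h3, h4⟩ := fix_fx ((IntermediateField.mem_fixingSubgroup_iff _ _).1 h1)
    refine ⟨h2, h3, ?_⟩
    rw [(frame p F Z hZ).pr_of h3]
    exact h4

theorem frame_bot (p : ℕ) (F : IntermediateField ℚ QB)
    [FiniteDimensional ℚ F] (Z : IntermediateField ℚ QB) (hZ : Z.fixingSubgroup.Normal) :
    (frame p F Z hZ).K ⊥ = (F ⊔ Z).fixingSubgroup :=
  (frame_K p F Z hZ ⊥).trans (congrArg (fun X => (X ⊔ Z).fixingSubgroup) (fx_bot F))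

/-- The class function. -/
theorem exists_cls (p : ℕ) (F : IntermediateField ℚ QB)
    [FiniteDimensional ℚ F] (Z : IntermediateField ℚ QB) (hZ : Z.fixingSubgroup.Normal)
    (R : Finset ℕ) (hR : UnramifiedOutside R F) :
    ∃ e : (QB ≃ₐ[ℚ] QB) → Option (Bool × primesOver (insert p R) (F ⊔ Z) × (F ≃ₐ[ℚ] F)),
      (frame p F Z hZ).Cls e := by
  classical
  let f := frame p F Z hZ
  -- the prime of an element of `In`
  have hpr : ∀ σ ∈ (sys p).In, σ ∈ f.K ⊤ → σ ∉ f.K ⊥ → ∃ (b : Bool) (P : Ideal OB),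
      P.IsMaximal ∧ (∃ q ∈ insert p R, (q : OB) ∈ P) ∧
      (b = true → ∀ x y : OB, (y : QB) = σ x → y - x ∈ P) ∧
      (b = false → (p : OB) ∈ P ∧ Mv σ P P) := by
    rintro σ (hσ | hσ) h1 h2
    · obtain ⟨P, hP, _, hI⟩ := hσ
      refine ⟨true, P, hP, ?_, fun _ => hI, fun h => absurd h Bool.false_ne_true.symm⟩
      by_contra hcon
      push Not at hcon
      apply h2
      have h3 : IsInertia R σ := ⟨P, hP, fun q hq => hcon q (Finset.mem_insert_of_mem hq), hI⟩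
      have h4 := hR σ h3
      obtain ⟨h5, h6⟩ := mem_of_fix ((IntermediateField.mem_fixingSubgroup_iff _ _).2 h4)
      refine ⟨h1.1, h5, ?_⟩
      rw [f.pr_of h5]
      exact h6
    · obtain ⟨P, hP, hp, hI⟩ := hσ
      exact ⟨false, P, hP, ⟨p, Finset.mem_insert_self _ _, hp⟩,
        fun h => absurd h Bool.false_ne_true, fun _ => ⟨hp, hI⟩⟩
  choose! b P hP using hpr
  have hmem : ∀ P : Ideal OB, P.IsMaximal → (∃ q ∈ insert p R, (q : OB) ∈ P) →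
      P.comap (inc (F ⊔ Z)) ∈ primesOver (insert p R) (F ⊔ Z) := by
    intro P hP ⟨q, hq, hqP⟩
    refine ⟨?_, q, hq, ?_⟩
    · have hint : (inc (F ⊔ Z)).IsIntegral := by
        intro x
        obtain ⟨m, hm, hx⟩ := (Algebra.IsIntegral.isIntegral (R := ℤ) x)
        refine ⟨m.map (algebraMap ℤ _), hm.map _, ?_⟩
        rw [Polynomial.eval₂_map]
        have h1 : (inc (F ⊔ Z)).comp (algebraMap ℤ (NumberField.RingOfIntegers ↥(F ⊔ Z))) =
            algebraMap ℤ OB := RingHom.ext_int _ _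
        rw [h1]
        exact hx
      exact Ideal.isMaximal_comap_of_isIntegral_of_isMaximal' _ hint P
    · rw [mem_comap_inc, map_natCast]
      exact hqP
  refine ⟨fun σ => if h : ∃ h1 : σ ∈ (sys p).In, σ ∈ f.K ⊤ ∧ σ ∉ f.K ⊥ then
    some (b σ, ⟨(P σ).comap (inc (F ⊔ Z)), by
      obtain ⟨h1, h2, h3⟩ := h
      exact hmem _ (hP σ h1 h2 h3).1 (hP σ h1 h2 h3).2.1⟩, f.pr σ) else none, ?_⟩
  intro σ hσ τ hτ hσ1 hτ1 hσ2 hτ2 hστ
  have e1 : ∃ h1 : σ ∈ (sys p).In, σ ∈ f.K ⊤ ∧ σ ∉ f.K ⊥ := ⟨hσ, hσ1, hσ2⟩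
  have e2 : ∃ h1 : τ ∈ (sys p).In, τ ∈ f.K ⊤ ∧ τ ∉ f.K ⊥ := ⟨hτ, hτ1, hτ2⟩
  simp only [dif_pos e1, dif_pos e2] at hστ
  have h3 := Option.some_injective _ hστ
  obtain ⟨hb, h4⟩ := Prod.mk.inj h3
  obtain ⟨h5, hpr⟩ := Prod.mk.inj h4
  have h6 : (P σ).comap (inc (F ⊔ Z)) = (P τ).comap (inc (F ⊔ Z)) := congrArg Subtype.val h5
  obtain ⟨k1, k2, k3, k4⟩ := hP σ hσ hσ1 hσ2
  obtain ⟨l1, l2, l3, l4⟩ := hP τ hτ hτ1 hτ2
  obtain ⟨g, hg, hg'⟩ := trans_L (F ⊔ Z) (P σ) (P τ) k1 l1 fun x hx => by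
    obtain ⟨y, rfl⟩ := exists_inc hx
    rw [← mem_comap_inc, ← mem_comap_inc, h6]
  have hgK : g ∈ f.K ⊥ := by
    rw [show f.K ⊥ = (F ⊔ Z).fixingSubgroup from frame_bot p F Z hZ]
    exact hg
  refine ⟨g, hgK, ?_, ?_⟩
  · have h7 : g⁻¹ * τ * g ∈ f.K ⊤ := (f.K ⊤).mul_mem ((f.K ⊤).mul_mem ((f.K ⊤).inv_mem
      (f.bot_le ⊤ hgK)) hτ1) (f.bot_le ⊤ hgK)
    have h8 := (f.K ⊤).mul_mem ((f.K ⊤).inv_mem hσ1) h7
    refine ⟨h8.1, h8.2.1, ?_⟩
    rw [Subgroup.mem_bot, f.pr_mul (f.St.inv_mem hσ1.2.1) h7.2.1, f.pr_inv hσ1.2.1,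
      f.pr_mul (f.St.mul_mem (f.St.inv_mem hgK.2.1) hτ1.2.1) hgK.2.1,
      f.pr_mul (f.St.inv_mem hgK.2.1) hτ1.2.1, f.pr_inv hgK.2.1, (f.mem_bot.1 hgK).2.2, hpr]
    group
  · cases hbb : b σ with
    | true =>
      refine Or.inl ⟨P σ, k1, fun q hq => absurd hq (Finset.notMem_empty q), ?_⟩
      have h7 := mv_inertia hg' (l3 (hb.symm.trans hbb))
      have h8 := k3 hbb
      intro x y hxy
      -- `y = σ⁻¹ z`, `z = (g⁻¹ τ g) x`
      let z : OB := ac (g⁻¹ * τ * g) x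
      have h9 : z - x ∈ P σ := h7 x z rfl
      have h10 : z - y ∈ P σ := h8 y z (by
        rw [hxy]
        change ((ac (g⁻¹ * τ * g) x : OB) : QB) = σ (σ⁻¹ ((g⁻¹ * τ * g) x))
        rw [ac_coe]
        exact (σ.apply_symm_apply _).symm)
      have h11 : y - x = (z - x) - (z - y) := by ring
      rw [h11]
      exact (P σ).sub_mem h9 h10
    | false =>
      obtain ⟨k5, k6⟩ := k4 hbb
      obtain ⟨l5, l6⟩ := l4 (hb.symm.trans hbb)
      exact Or.inr ⟨P σ, k1, k5, mv_mul (mv_mul hg' (mv_mul l6 (mv_inv hg'))) (mv_inv k6)⟩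

end Pool.Agent.H24UR
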