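import Mathlib
import Pool.Agent.H24UR.Frm
import Pool.Agent.H24MU.Red

/-!
# The main theorems
-/

set_option autoImplicit false

namespace Pool.Agent.H24UR

open IntermediateField Pool.Agent.H24MU.St Pool.Agent.H24MU Pool.Agent.H24UR.St
  Pool.Agent.X310.Mu

attribute [local instance] alg_QB

variable {p : ℕ}

theorem Homs_eq (p : ℕ) (K : IntermediateField ℚ QB) :
    Homs p K = ((sys p).H p K.fixingSubgroup : Set (GQ → ZMod p)) := by
  have hF : ∀ (E : IntermediateField ℚ QB) (σ : GQ), Fixes E σ ↔ σ ∈ E.fixingSubgroup :=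
    fun E σ => (IntermediateField.mem_fixingSubgroup_iff _ _).symm
  ext φ
  constructor
  · rintro ⟨h1, h2, ⟨E, hE, h3⟩, h4⟩
    refine ⟨fun σ hσ => h1 σ fun h => hσ ((hF K σ).1 h), fun σ hσ τ hτ =>
      h2 σ τ ((hF K σ).2 hσ) ((hF K τ).2 hτ), ⟨E.fixingSubgroup, ⟨E, hE, le_rfl⟩, fun σ hσ hu =>
      h3 σ ((hF K σ).2 hσ) ((hF E σ).2 hu)⟩, fun σ hσ hi => h4 σ ((hF K σ).2 hσ) hi⟩
  · rintro ⟨h1, h2, ⟨U, ⟨E, hE, hU⟩, h3⟩, h4⟩
    refine ⟨fun σ hσ => h1 σ fun h => hσ ((hF K σ).2 h), fun σ τ hσ hτ =>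
      h2 σ ((hF K σ).1 hσ) τ ((hF K τ).1 hτ), ⟨E, hE, fun σ hσ hu =>
      h3 σ ((hF K σ).1 hσ) (hU ((hF E σ).1 hu))⟩, fun σ hσ hi => h4 σ ((hF K σ).1 hσ) hi⟩

theorem Homs_card (p : ℕ) (K : IntermediateField ℚ QB) :
    numHoms p K = Nat.card ((sys p).H p K.fixingSubgroup) := by
  unfold numHoms
  rw [Homs_eq]
  rfl

theorem finite_H {K : IntermediateField ℚ QB} :
    (Homs p K).Finite ↔ Finite ((sys p).H p K.fixingSubgroup) := by
  rw [Homs_eq]
  exact Set.finite_coe_iff.symm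

/-- The inequality. -/
theorem bounded (hp : p.Prime) (F : IntermediateField ℚ QB) [FiniteDimensional ℚ F]
    (Z : IntermediateField ℚ QB) (hZ : Z.fixingSubgroup.Normal) {ι : Type} [Fintype ι]
    (D : ι → Subgroup (Aut F)) (hdom : Dominating p D) (R : Finset ℕ)
    (hR : UnramifiedOutside R F) : RankInequality p R F Z D := by
  intro ht h
  have : Fact p.Prime := ⟨hp⟩
  have : Fintype (F ≃ₐ[ℚ] F) := Fintype.ofFinite _
  have hK : ∀ i, (frame p F Z hZ).K (D i) = (fx F (D i) ⊔ Z).fixingSubgroup := fun i =>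
    frame_K p F Z hZ (D i)
  obtain ⟨e, he⟩ := exists_cls p F Z hZ R hR
  have hft : Finite (primesOver (insert p R) (F ⊔ Z)) := ht
  have hi : ∀ i, Finite ((sys p).H p ((frame p F Z hZ).K (D i))) ∧
      Nat.card ((sys p).H p ((frame p F Z hZ).K (D i))) =
        numHoms p (fx F (D i) ⊔ Z) := fun i => by
    rw [hK, Homs_card]
    exact ⟨finite_H.1 (h i), rfl⟩
  obtain ⟨h1, h2⟩ := (frame p F Z hZ).finite_of_dom p D (fun V _ _ b hV hirr hv =>
    hdom V b ⟨hV, by
      obtain ⟨v, hv, _⟩ := hv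
      exact ⟨v, hv⟩, hirr⟩) e he (fun i => (hi i).1)
  have hE : Nat.card (Option (Bool × primesOver (insert p R) (F ⊔ Z) × (F ≃ₐ[ℚ] F))) =
      2 * (primesOver (insert p R) (F ⊔ Z)).ncard * Nat.card (F ≃ₐ[ℚ] F) + 1 := by
    rw [Finite.card_option, Nat.card_prod, Nat.card_prod, Nat.card_eq_fintype_card (α := Bool),
      Fintype.card_bool, ← mul_assoc]
    rfl
  rw [finite_H, Homs_card, ← frame_bot p F Z hZ]
  refine ⟨h1, h2.trans (le_of_eq ?_)⟩
  congr 1
  refine Finset.prod_congr rfl fun i _ => ?_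
  rw [(hi i).2, hE, ← pow_add]
  rfl

/-- Finite decomposition. -/
theorem finite_primes {q : ℕ} (hp : p.Prime) (hq : q.Prime) (F : IntermediateField ℚ QB)
    [FiniteDimensional ℚ F] : {I : Ideal (NumberField.RingOfIntegers ↥(F ⊔ Qcyc p)) |
      I.IsMaximal ∧ (q : NumberField.RingOfIntegers ↥(F ⊔ Qcyc p)) ∈ I}.Finite := by
  obtain ⟨E, hE, o, ho⟩ := orb hp hq F
  let L : IntermediateField ℚ QB := F ⊔ Qcyc p
  have hex : ∀ I : {I : Ideal (NumberField.RingOfIntegers L) | I.IsMaximal ∧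
      (q : NumberField.RingOfIntegers L) ∈ I}, ∃ P : Ideal OB, P.IsMaximal ∧
      P.comap (inc L) = I.1 := by
    rintro ⟨I, hI, hqI⟩
    let : Algebra (NumberField.RingOfIntegers L) OB := (inc L).toAlgebra
    have hint : Algebra.IsIntegral (NumberField.RingOfIntegers L) OB := by
      constructor
      intro x
      obtain ⟨m, hm, hx⟩ := (Algebra.IsIntegral.isIntegral (R := ℤ) x)
      refine ⟨m.map (algebraMap ℤ _), hm.map _, ?_⟩
      rw [Polynomial.eval₂_map]
      have h1 : (algebraMap (NumberField.RingOfIntegers L) OB).comp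
          (algebraMap ℤ (NumberField.RingOfIntegers L)) = algebraMap ℤ OB := RingHom.ext_int _ _
      rw [h1]
      exact hx
    have hinj : Function.Injective (inc L) := by
      intro x y hxy
      have h1 : (((inc L x : OB)) : QB) = ((inc L y : OB) : QB) := congrArg Subtype.val hxy
      exact NumberField.RingOfIntegers.ext (Subtype.ext h1)
    obtain ⟨P, hP, hPI⟩ := Ideal.exists_ideal_over_maximal_of_isIntegral (S := OB) I (by
      rw [(RingHom.injective_iff_ker_eq_bot _).1 (show Function.Injective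
        (algebraMap (NumberField.RingOfIntegers L) OB) from hinj)]
      exact bot_le)
    exact ⟨P, hP, hPI⟩
  choose P hP hPI using hex
  have hqP : ∀ I, (q : OB) ∈ P I := by
    intro I
    have h1 : (q : NumberField.RingOfIntegers L) ∈ (P I).comap (inc L) := by
      rw [hPI]
      exact I.2.2
    rw [mem_comap_inc, map_natCast] at h1
    exact h1
  refine Set.finite_coe_iff.1 (Finite.of_injective (fun I => o (P I)) fun I J hIJ => ?_)
  obtain ⟨g, hg, hg'⟩ := ho _ _ (hP I) (hP J) (hqP I) (hqP J) hIJ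
  apply Subtype.ext
  rw [← hPI I, ← hPI J]
  ext x
  rw [mem_comap_inc, mem_comap_inc]
  refine hg' (inc L x) (inc L x) ?_
  exact ((IntermediateField.mem_fixingSubgroup_iff _ _).1 hg _ (x : L).2).symm

theorem finite_primesOver (hp : p.Prime) (S : Finset ℕ) (hS : ∀ q ∈ S, q.Prime)
    (F : IntermediateField ℚ QB) [FiniteDimensional ℚ F] :
    (primesOver S (F ⊔ Qcyc p)).Finite := by
  have h1 : primesOver S (F ⊔ Qcyc p) ⊆ ⋃ q ∈ S,
      {I : Ideal (NumberField.RingOfIntegers ↥(F ⊔ Qcyc p)) |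
        I.IsMaximal ∧ (q : NumberField.RingOfIntegers ↥(F ⊔ Qcyc p)) ∈ I} := by
    rintro I ⟨hI, q, hq, hqI⟩
    exact Set.mem_biUnion hq ⟨hI, hqI⟩
  exact (S.finite_toSet.biUnion fun q hq => finite_primes hp (hS q hq) F).subset h1

theorem Qcyc_normal (p : ℕ) : (Qcyc p).fixingSubgroup.Normal := by
  let I : Set (IntermediateField ℚ QB) := {B : Fds | IsGalois ℚ B ∧ NumberField.IsTotallyReal B ∧
    (∃ n, Module.finrank ℚ B = p ^ n) ∧ ∃ n, B ≤ adjoin ℚ {z : QB | z ^ p ^ n = 1}}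
  have h : ∀ B : I, @Normal ℚ B.1 _ _ B.1.algebra' := fun B => (isGalois_iff.1 B.2.1).2
  have h1 := IntermediateField.normal_iSup (F := ℚ) (K := QB) (fun B : I => B.1) (h := h)
  have h0 : Qcyc p = ⨆ B : I, B.1 := sSup_eq_iSup' I
  rw [← h0] at h1
  exact normal_fix _ h1

/-- The main theorem in one direction. -/
theorem mu_dom (hp : p.Prime) (F : IntermediateField ℚ QB) [FiniteDimensional ℚ F]
    {ι : Type} (D : ι → Subgroup (Aut F)) (hdom : Dominating p D)
    (h : ∀ i, MuConj p (fx F (D i))) : MuConj p F := by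
  classical
  obtain ⟨R, hR, hR'⟩ := exists_ram F
  have : Finite (Subgroup (Aut F)) := inferInstanceAs (Finite (Subgroup (F ≃ₐ[ℚ] F)))
  have : Fintype {E : Subgroup (Aut F) // ∃ i, D i = E} := Fintype.ofFinite _
  have hR2 : ∀ q ∈ insert p R, q.Prime := by
    intro q hq
    rcases Finset.mem_insert.1 hq with hq | hq
    · rw [hq]
      exact hp
    · exact hR q hq
  refine (bounded hp F (Qcyc p) (Qcyc_normal p)
    (fun E : {E : Subgroup (Aut F) // ∃ i, D i = E} => E.1) ?_ R hR'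
    (finite_primesOver hp _ hR2 F) ?_).1
  · intro V _ _ b hb
    obtain ⟨i, hi⟩ := hdom V b hb
    exact ⟨⟨D i, i, rfl⟩, hi⟩
  · rintro ⟨_, i, rfl⟩
    exact h i

/-- The field can be replaced by a smaller one. -/
theorem mu_mono {M L : IntermediateField ℚ QB} [FiniteDimensional ℚ L] (hML : M ≤ L)
    (hp : p.Prime) (h : MuConj p L) : MuConj p M := by
  have : Fact p.Prime := ⟨hp⟩
  have hle : (L ⊔ Qcyc p).fixingSubgroup ≤ (M ⊔ Qcyc p).fixingSubgroup :=
    IntermediateField.fixingSubgroup_antitone (sup_le_sup_right hML _)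
  obtain ⟨α, T, hT, hα⟩ := exists_prim L
  unfold MuConj
  rw [finite_H]
  refine (sys p).H_mono p hle (finite_H.1 h) (fun σ : QB ≃ₐ[ℚ] QB => σ α) T hT ?_
  intro σ hσ τ hτ hστ
  rw [IntermediateField.fixingSubgroup_sup]
  refine ⟨hα _ ?_, ?_⟩
  · apply τ.injective
    change τ (τ⁻¹ (σ α)) = τ α
    rw [← show σ α = τ α from hστ]
    exact τ.apply_symm_apply _
  · exact IntermediateField.fixingSubgroup_antitone (le_sup_right : Qcyc p ≤ M ⊔ Qcyc p)
      (Subgroup.mul_mem _ (Subgroup.inv_mem _ hτ) hσ)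

/-- **The main theorem**. -/
theorem mu_iff (hp : p.Prime) (F : IntermediateField ℚ QB) [FiniteDimensional ℚ F]
    {ι : Type} (D : ι → Subgroup (Aut F)) (hdom : Dominating p D) :
    MuConj p F ↔ ∀ i, MuConj p (fx F (D i)) :=
  ⟨fun h i => mu_mono (fx_le F (D i)) hp h, mu_dom hp F D hdom⟩

/-- The witness for the nonvanishing. -/
theorem mu_witness (hp : p.Prime) (F : IntermediateField ℚ QB) [FiniteDimensional ℚ F] :
    ¬ MuConj p F ↔ HasWitness p F := by
  constructor
  · intro h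
    by_contra hcon
    apply h
    refine mu_dom hp F (fun D : {D : Subgroup (Aut F) // MuConj p (fx F D)} => D.1) ?_
      fun D => D.2
    intro V i1 i2 b hb
    by_contra hno
    apply hcon
    refine ⟨V, i1, i2, b, hb, fun D hD hmu => hno ⟨⟨D, hmu⟩, hD⟩⟩
  · rintro ⟨V, i1, i2, b, hb, h⟩
    have h1 := h ⊥ (by
      obtain ⟨v, hv⟩ := hb.2.1
      refine ⟨v, hv, fun d hd => ?_⟩
      rw [Subgroup.mem_bot.1 hd, map_one, MulAut.one_apply])
    have h2 : fx F (⊥ : Subgroup (Aut F)) = F := fx_bot F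
    rwa [h2] at h1

theorem red (hp : p.Prime) (C : Set Fds) (hC : SubfieldClosed C) (n : ℕ)
    (h : ∀ M ∈ C, TightFor p C M → deg M ≤ n → MuConj p M)
    (F : IntermediateField ℚ QB) (hF : F ∈ C) (hn : deg F ≤ n) : MuConj p F := by
  obtain ⟨m, hm⟩ : ∃ m, deg F = m := ⟨_, rfl⟩
  induction m using Nat.strong_induction_on generalizing F with
  | _ m ih =>
    by_cases ht : TightFor p C F
    · exact h F hF ht hn
    unfold TightFor at ht
    push Not at ht
    obtain ⟨L, hL, hFL, hV⟩ := ht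
    have hLf : FiniteDimensional ℚ L := (hC L hL).1
    refine mu_mono hFL hp ?_
    refine mu_dom hp L (fun D : {D : Subgroup (Aut L) // deg (fx L D) < deg F} => D.1) ?_
      fun D => ?_
    · intro V i1 i2 b hb
      obtain ⟨D, hD, hDf⟩ := hV V i1 i2 b hb
      exact ⟨⟨D, hD⟩, hDf⟩
    · have hlt : deg (fx L D.1) < m := D.2.trans_eq hm
      exact ih _ hlt (fx L D.1) ((hC L hL).2 _ (fx_le L D.1))
        ((hlt.le.trans hm.ge).trans hn) rfl

theorem restricted (hp : p.Prime) (C : Set Fds) (hC : SubfieldClosed C)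
    (M : IntermediateField ℚ QB) (hM : M ∈ C) (ht : TightFor p C M) : Restrictions p C M := by
  have : Fact p.Prime := ⟨hp⟩
  have hMf : FiniteDimensional ℚ M := (hC M hM).1
  have hlt : ∀ D : Subgroup (Aut M), D ≠ ⊥ → deg (fx M D) < deg M := by
    intro D hD
    have h1 := fx_finrank M D
    have : Finite (Aut M) := inferInstanceAs (Finite (M ≃ₐ[ℚ] M))
    have h2 : 1 < Nat.card D := Subgroup.one_lt_card_iff_ne_bot D |>.2 hD
    have h3 : 0 < deg M := Module.finrank_pos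
    have h4 : 0 < deg (fx M D) := by
      rcases Nat.eq_zero_or_pos (deg (fx M D)) with h | h
      · rw [h, zero_mul] at h1
        omega
      · exact h
    nlinarith
  obtain ⟨V, i1, i2, b, ⟨hV, hne, hirr⟩, hfix⟩ := ht M hM le_rfl
  have hfree : ∀ σ : Aut M, σ ≠ 1 → ∀ v, b σ v = v → v = 1 := by
    intro σ hσ v hv
    by_contra hv1
    refine hfix (Subgroup.zpowers σ) (hlt _ fun h => hσ (Subgroup.zpowers_eq_bot.1 h))
      ⟨v, hv1, fun d hd => ?_⟩
    have h1 : Subgroup.zpowers σ ≤ (MulAction.stabilizer (MulAut V) v).comap b := by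
      rw [Subgroup.zpowers_le]
      exact hv
    exact h1 hd
  refine ⟨fun hdvd => ?_, ⟨V, i1, i2, b, hV, hne, hfree⟩, fun L hL hML P hP => ?_⟩
  · have : Finite (Aut M) := inferInstanceAs (Finite (M ≃ₐ[ℚ] M))
    obtain ⟨σ, hσ⟩ := exists_prime_orderOf_dvd_card' p hdvd
    obtain ⟨v, hv1, hv⟩ := pgroup_fixed hp b hV hne (Subgroup.zpowers σ)
      ⟨1, by rw [pow_one, Nat.card_zpowers, hσ]⟩
    refine hv1 (hfree σ (fun h => ?_) v (hv σ (Subgroup.mem_zpowers σ)))
    rw [h, orderOf_one] at hσ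
    exact hp.one_lt.ne hσ
  · have hLf : FiniteDimensional ℚ L := (hC L hL).1
    obtain ⟨V', j1, j2, b', ⟨hV', hne', _⟩, hfix'⟩ := ht L hL hML
    by_contra hlt'
    push Not at hlt'
    refine hfix' P ?_ (pgroup_fixed hp b' hV' hne' P hP)
    have h1 := fx_finrank L P
    rw [← h1, mul_comm (Nat.card P)] at hlt'
    exact lt_of_mul_lt_mul_right hlt' (Nat.zero_le _)

end Pool.Agent.H24UR
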